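import Pool.Agent.Helper90.QF.St

set_option autoImplicit false

namespace Pool.Agent.Helper98.QF

open Pool.Agent.Helper90.QF MvPolynomial

theorem UBA_coeff_TT (x : KK) (j : ℤ) : (TT * x).coeff j = x.coeff (j + 2) := by
  have h := HahnSeries.coeff_single_mul_add (r := (1 : Polynomial ℂ)) (x := x)
    (a := j + 2) (b := (-2 : ℤ))
  rw [show j + 2 + -2 = j by ring, one_mul] at h
  exact h

theorem UBA_ev_X : ev (Polynomial.X : Polynomial ℂ) = TT := by
  unfold ev
  exact Polynomial.aeval_X TT

theorem UBA_smul (a : ℂ) (x : KK) (j : ℤ) :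
    (a • x).coeff j = Polynomial.C a * x.coeff j := by
  show a • x.coeff j = _
  rw [Polynomial.smul_eq_C_mul]

theorem UBA_map (a : ℂ) (x : KK) (j : ℤ) :
    ((algebraMap ℂ KK) a * x).coeff j = Polynomial.C a * x.coeff j := by
  have h1 : (algebraMap ℂ KK) a = HahnSeries.C (Polynomial.C a) := by
    rw [HahnSeries.algebraMap_apply', PowerSeries.algebraMap_apply,
      HahnSeries.ofPowerSeries_C]
    rfl
  rw [h1, HahnSeries.C_mul_eq_smul, HahnSeries.coeff_smul, smul_eq_mul]

theorem UBA_ev_C (a : ℂ) (x : KK) (j : ℤ) :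
    (ev (Polynomial.C a) * x).coeff j = Polynomial.C a * x.coeff j := by
  unfold ev
  rw [Polynomial.aeval_C]
  exact UBA_map a x j

theorem UBA_ev_coeff (p : Polynomial ℂ) (j : ℤ) :
    (ev p).coeff j = ∑ m ∈ Finset.range (p.natDegree + 1),
      if j = -2 * (m : ℤ) then Polynomial.C (p.coeff m) else 0 := by
  unfold ev
  rw [Polynomial.aeval_eq_sum_range, HahnSeries.coeff_sum]
  refine Finset.sum_congr rfl ?_
  intro m _
  rw [Algebra.smul_def]
  refine (UBA_map (p.coeff m) (TT ^ m) j).trans ?_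
  unfold TT
  rw [HahnSeries.single_pow, HahnSeries.coeff_single, one_pow]
  have e : (j = m • (-2 : ℤ)) ↔ (j = -2 * (m : ℤ)) := by
    rw [nsmul_eq_mul, mul_comm]
  by_cases h : j = -2 * (m : ℤ)
  · rw [if_pos h, if_pos (e.2 h), mul_one]
  · rw [if_neg h, if_neg (fun h' => h (e.1 h')), mul_zero]

theorem UBA_ev_coeff_even (p : Polynomial ℂ) (m : ℕ) :
    (ev p).coeff (-2 * (m : ℤ)) = Polynomial.C (p.coeff m) := by
  rw [UBA_ev_coeff]
  by_cases hm : m < p.natDegree + 1
  · rw [Finset.sum_eq_single m]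
    · rw [if_pos rfl]
    · intro b _ hb
      rw [if_neg]
      intro h
      apply hb
      have : (b : ℤ) = m := by linarith
      exact_mod_cast this
    · intro h
      exact absurd (Finset.mem_range.2 hm) h
  · rw [Finset.sum_eq_zero]
    · rw [Polynomial.coeff_eq_zero_of_natDegree_lt (by omega), map_zero]
    · intro b hb
      rw [if_neg]
      intro h
      have h1 : (b : ℤ) = m := by linarith
      have h2 : b = m := by exact_mod_cast h1
      rw [Finset.mem_range] at hb
      omega

theorem UBA_unit (p : Polynomial ℂ) (hp : p ≠ 0) : IsUnit (ev p) := by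
  have h1 : (ev p).coeff (-2 * (p.natDegree : ℤ)) = Polynomial.C p.leadingCoeff :=
    UBA_ev_coeff_even p p.natDegree
  have hl : p.leadingCoeff ≠ 0 := Polynomial.leadingCoeff_ne_zero.2 hp
  have h2 : (ev p).coeff (-2 * (p.natDegree : ℤ)) ≠ 0 := by
    rw [h1]
    exact Polynomial.C_ne_zero.2 hl
  have h3 : (ev p).order ≤ -2 * (p.natDegree : ℤ) := HahnSeries.order_le_of_coeff_ne_zero h2
  have hne : ev p ≠ 0 := by
    intro h
    rw [h] at h2
    exact h2 rfl
  have h4 : -2 * (p.natDegree : ℤ) ≤ (ev p).order := by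
    by_contra hcon
    have hcon' : (ev p).order < -2 * (p.natDegree : ℤ) := not_le.1 hcon
    have h5 : (ev p).coeff (ev p).order = 0 := by
      rw [UBA_ev_coeff]
      refine Finset.sum_eq_zero ?_
      intro b hb
      rw [if_neg]
      intro h
      rw [Finset.mem_range] at hb
      have : (b : ℤ) ≤ p.natDegree := by
        have : b ≤ p.natDegree := by omega
        exact_mod_cast this
      linarith
    exact hne (HahnSeries.coeff_order_eq_zero.1 h5)
  have h6 : (ev p).order = -2 * (p.natDegree : ℤ) := le_antisymm h3 h4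
  rw [HahnSeries.isUnit_iff, HahnSeries.leadingCoeff_eq, h6, h1]
  exact Polynomial.isUnit_C.2 (isUnit_iff_ne_zero.2 hl)

theorem UBA_co_smul (p : Polynomial ℂ) (z : UU) (c : ℂ) (j : ℤ) :
    co (p • z) c j = (ev p * z c).coeff j := rfl

theorem UBA_X (z : UU) (c : ℂ) (j : ℤ) :
    co ((Polynomial.X : Polynomial ℂ) • z) c j = co z c (j + 2) := by
  rw [UBA_co_smul, UBA_ev_X, UBA_coeff_TT]
  rfl

theorem UBA_C (a : ℂ) (z : UU) (c : ℂ) (j : ℤ) :
    co ((Polynomial.C a : Polynomial ℂ) • z) c j = Polynomial.C a * co z c j := by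
  rw [UBA_co_smul, UBA_ev_C]
  rfl

theorem UBA_th (z : UU) (c : ℂ) (j : ℤ) : co (th z) c j = Polynomial.derivative (co z c j) -
    Polynomial.C ((j : ℂ) / 2) * co z c j + Polynomial.C c * co z c (j + 2) := by
  show (del (z c) + c • (TT * z c)).coeff j = _
  have h1 : (c • (TT * z c)).coeff j = Polynomial.C c * (TT * z c).coeff j :=
    UBA_smul c (TT * z c) j
  rw [UBA_coeff_TT] at h1
  refine (HahnSeries.coeff_add' (x := del (z c)) (y := c • (TT * z c)) |> (congrFun · j)).trans ?_
  show (del (z c)).coeff j + (c • (TT * z c)).coeff j = _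
  rw [h1]
  rfl

theorem UBA_ext (z z' : UU) (h : ∀ c j, co z c j = co z' c j) : z = z' := by
  funext c
  ext1
  funext j
  exact h c j

theorem UBA_co_add (z z' : UU) (c : ℂ) (j : ℤ) :
    co (z + z') c j = co z c j + co z' c j := by
  show (z c + z' c).coeff j = _
  rw [HahnSeries.coeff_add]
  rfl

theorem UBA_th_add (z z' : UU) : th (z + z') = th z + th z' := by
  apply UBA_ext
  intro c j
  rw [UBA_co_add, UBA_th, UBA_th, UBA_th, UBA_co_add, UBA_co_add, map_add]
  ring

theorem UBA_th_X (z : UU) : th ((Polynomial.X : Polynomial ℂ) • z) =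
    (Polynomial.X : Polynomial ℂ) • th z + (Polynomial.X : Polynomial ℂ) • z := by
  apply UBA_ext
  intro c j
  rw [UBA_co_add, UBA_th, UBA_X, UBA_X, UBA_X, UBA_th]
  have e : ((j + 2 : ℤ) : ℂ) / 2 = (j : ℂ) / 2 + 1 := by
    push_cast
    ring
  rw [e, Polynomial.C_add, Polynomial.C_1]
  ring

theorem UBA_th_C (a : ℂ) (z : UU) : th ((Polynomial.C a : Polynomial ℂ) • z) =
    (Polynomial.C a : Polynomial ℂ) • th z := by
  apply UBA_ext
  intro c j
  rw [UBA_th, UBA_C, UBA_C, UBA_C, UBA_th, Polynomial.derivative_C_mul]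
  ring

theorem UBA_th_smul (p : Polynomial ℂ) : ∀ z : UU,
    th (p • z) = p • th z + (Polynomial.X * Polynomial.derivative p) • z := by
  induction p using Polynomial.induction_on with
  | C a =>
    intro z
    rw [UBA_th_C, Polynomial.derivative_C, mul_zero, zero_smul, add_zero]
  | add p q hp hq =>
    intro z
    rw [add_smul, UBA_th_add, hp z, hq z, add_smul, Polynomial.derivative_add, mul_add,
      add_smul]
    abel
  | monomial n a h =>
    intro z
    have e1 : (Polynomial.C a * Polynomial.X ^ (n + 1) : Polynomial ℂ) =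
        (Polynomial.C a * Polynomial.X ^ n) * Polynomial.X := by
      rw [pow_succ, mul_assoc]
    have e4 : Polynomial.X * Polynomial.derivative
        ((Polynomial.C a * Polynomial.X ^ n) * Polynomial.X : Polynomial ℂ) =
        (Polynomial.X * Polynomial.derivative (Polynomial.C a * Polynomial.X ^ n))
          * Polynomial.X + (Polynomial.C a * Polynomial.X ^ n) * Polynomial.X := by
      rw [Polynomial.derivative_mul, Polynomial.derivative_X, mul_one]
      ring
    rw [e1, mul_smul, h (Polynomial.X • z), UBA_th_X, e4, smul_add, add_smul, ← mul_smul,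
      ← mul_smul, ← mul_smul]
    abel

theorem UBA_z1_pos (j : ℤ) : co z1 0 j = if j = 0 then 1 else 0 := by
  have h : z1 (0 : ℂ) = 1 := by
    unfold z1
    rw [if_pos rfl]
  show (z1 0).coeff j = _
  rw [h, HahnSeries.coeff_one]
  by_cases hj : j = 0
  · rw [if_pos hj, if_pos hj]
  · rw [if_neg hj, if_neg hj]

theorem UBA_z1_neg (c : ℂ) (hc : c ≠ 0) (j : ℤ) : co z1 c j = 0 := by
  have h : z1 c = 0 := by
    unfold z1
    rw [if_neg hc]
  show (z1 c).coeff j = 0
  rw [h]
  rfl

theorem hUBA : StUBA := by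
  refine ⟨UBA_X, UBA_C, UBA_th, UBA_th_add, UBA_th_smul, ?_, ?_, ?_, ?_, ?_, ?_, UBA_ext,
    UBA_co_add⟩
  · intro p hp z hz
    funext c
    have h1 : ev p * z c = 0 := congrFun hz c
    exact ((UBA_unit p hp).mul_right_eq_zero).1 h1
  · intro p hp z
    obtain ⟨u, hu⟩ := UBA_unit p hp
    refine ⟨fun c => (↑u⁻¹ : KK) * z c, ?_⟩
    funext c
    show ev p * ((↑u⁻¹ : KK) * z c) = z c
    rw [← hu, Units.mul_inv_cancel_left]
  · apply UBA_ext
    intro c j
    rw [UBA_th]
    have h0 : co (0 : UU) c j = 0 := rfl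
    rw [h0]
    by_cases h : c = 0
    · subst h
      rw [UBA_z1_pos]
      by_cases hj : j = 0
      · subst hj
        simp
      · simp [hj]
    · rw [UBA_z1_neg c h, UBA_z1_neg c h]
      simp
  · intro p m
    rw [UBA_co_smul]
    have : z1 (0 : ℂ) = 1 := by
      unfold z1
      rw [if_pos rfl]
    rw [this, mul_one]
    exact UBA_ev_coeff_even p m
  · intro z c
    exact ⟨(z c).order, fun j hj => HahnSeries.coeff_eq_zero_of_lt_order hj⟩
  · intro f hf
    have hb : ∀ c, BddBelow (Function.support (f c)) := by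
      intro c
      obtain ⟨J, hJ⟩ := hf c
      exact ⟨J, fun j hj => not_lt.1 (fun h => hj (hJ j h))⟩
    refine ⟨fun c => HahnSeries.ofSuppBddBelow (f c) (hb c), ?_⟩
    intro c j
    show (HahnSeries.ofSuppBddBelow (f c) (hb c)).coeff j = f c j
    rw [HahnSeries.coeff_ofSuppBddBelow]

end Pool.Agent.Helper98.QF
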